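import Mathlib

/-!
# The least inaccessible cardinal above a cardinal is not weakly compact (in terms of algebras)

`KAlg κ A`: `A` is a `κ`-complete subalgebra of the power set of `K`.
`KUlt κ A U`: `U` is a uniform `κ`-complete ultrafilter on `A`.
-/

namespace Pool.Agent.L7h73

open Cardinal Set

universe u

/-- `A` is a `κ`-complete subalgebra of `𝒫(K)`: it is closed under complements and under
intersections of fewer than `κ` members. -/
structure KAlg {K : Type u} (κ : Cardinal.{u}) (A : Set (Set K)) : Prop where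
  compl : ∀ S ∈ A, Sᶜ ∈ A
  inter : ∀ F : Set (Set K), F ⊆ A → #F < κ → ⋂₀ F ∈ A

/-- `U` is a uniform `κ`-complete ultrafilter on `A`. -/
structure KUlt {K : Type u} (κ : Cardinal.{u}) (A U : Set (Set K)) : Prop where
  sub : U ⊆ A
  ultra : ∀ S ∈ A, (S ∈ U ↔ Sᶜ ∉ U)
  up : ∀ S ∈ U, ∀ T ∈ A, S ⊆ T → T ∈ U
  inter : ∀ F : Set (Set K), F ⊆ U → #F < κ → ⋂₀ F ∈ U
  unif : ∀ S ∈ U, #S = κ

section order

variable {K : Type u} [LinearOrder K] [WellFoundedLT K]

theorem exists_mk_Iio (μ : Cardinal.{u}) (h : μ < #K) : ∃ a : K, #(Iio a) = μ := by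
  have h1 : μ.ord < Ordinal.type (α := K) (· < ·) := by
    by_contra hc
    push Not at hc
    have := Ordinal.card_le_card hc
    rw [Ordinal.card_type, Cardinal.card_ord] at this
    exact absurd h (not_lt.2 this)
  obtain ⟨a, ha⟩ := Ordinal.typein_surj (α := K) (· < ·) h1
  refine ⟨a, ?_⟩
  have h2 : (Ordinal.typein (α := K) (· < ·) a).card = #(Iio a) := by
    rw [← Ordinal.type_Iio_lt, Ordinal.card_type]
  rw [← h2, ha, Cardinal.card_ord]

theorem exists_lt_mk_Iio (α : K) (μ : Cardinal.{u}) (h : μ < #(Iio α)) :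
    ∃ a < α, #(Iio a) = μ := by
  obtain ⟨a, ha⟩ := exists_mk_Iio μ (h.trans_le (mk_set_le _))
  refine ⟨a, ?_, ha⟩
  by_contra hc
  push Not at hc
  have : #(Iio α) ≤ #(Iio a) := mk_le_mk_of_subset (Iio_subset_Iio hc)
  rw [ha] at this
  exact absurd h (not_lt.2 this)

omit [WellFoundedLT K] in
/-- Families of fewer than `κ` elements are bounded. -/
theorem bdd_of_lt (hreg : (#K).IsRegular) (hI : ∀ a : K, #(Iio a) < #K) {ι : Type u}
    (hι : #ι < #K) (f : ι → K) : ∃ b : K, ∀ i, f i < b := by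
  by_contra hc
  push Not at hc
  have h1 : (univ : Set K) ⊆ ⋃ i, Iic (f i) := by
    intro x _
    obtain ⟨i, hi⟩ := hc x
    exact mem_iUnion.2 ⟨i, hi⟩
  have h2 : #K ≤ Cardinal.sum fun i => #(Iic (f i)) := by
    rw [← mk_univ]
    exact (mk_le_mk_of_subset h1).trans (mk_iUnion_le_sum_mk)
  have h3 : (Cardinal.sum fun i => #(Iic (f i))) < #K := by
    apply Cardinal.sum_lt_of_isRegular hreg hι
    intro i
    have : #(Iic (f i)) ≤ #(Iio (f i)) + 1 := by
      rw [← Iio_insert]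
      exact mk_insert_le
    exact this.trans_lt (add_lt_of_lt hreg.aleph0_le (hI _) (one_lt_aleph0.trans_le hreg.aleph0_le))
  exact absurd h3 (not_lt.2 h2)

/-- Elements with small initial segments are bounded. -/
theorem bdd_of_mk (hsl : (#K).IsStrongLimit) (μ : Cardinal.{u}) (hμ : μ < #K) :
    ∃ b : K, ∀ a : K, #(Iio a) ≤ μ → a < b := by
  obtain ⟨b, hb⟩ := exists_mk_Iio (2 ^ μ) (hsl.isStrongPrelimit hμ)
  refine ⟨b, fun a ha => ?_⟩
  by_contra hc
  push Not at hc
  have : #(Iio b) ≤ #(Iio a) := mk_le_mk_of_subset (Iio_subset_Iio hc)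
  rw [hb] at this
  exact absurd (this.trans ha) (not_le.2 (cantor μ))

/-- The two witnesses that no element above `ℓ` is inaccessible. -/
theorem star (lam : Cardinal.{u}) (hlam : ℵ₀ ≤ lam) (hlK : lam < #K) (hin : (#K).IsInaccessible)
    (hI : ∀ a : K, #(Iio a) < #K)
    (hno : ∀ ν : Cardinal.{u}, lam < ν → ν < #K → ¬ ν.IsInaccessible) :
    ∃ (ℓ : K) (ρ : K → K) (h : K → K → K),
      (∀ α, ℓ < α → ρ α < α) ∧ (∀ α, ℓ < α → ∀ i, h α i < α) ∧
      (∀ (ρ0 : K) (η : K → K), ∃ b : K, ∀ α, ℓ < α → ρ α = ρ0 → (∀ i < ρ0, h α i = η i) →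
        α < b) := by
  classical
  obtain ⟨ℓ, hℓ⟩ := exists_mk_Iio lam hlK
  -- pointwise data
  have key : ∀ α : K, ℓ < α → ∃ (β : K) (g : K → K), β < α ∧ (∀ i, g i < α) ∧
      ((#(Iio α) ≤ 2 ^ #(Iio β)) ∨ (∀ c < α, ∃ i < β, c ≤ g i)) := by
    intro α hα
    by_cases hA : ∃ β < α, #(Iio α) ≤ 2 ^ #(Iio β)
    · obtain ⟨β, hβ, h2⟩ := hA
      exact ⟨β, fun _ => ℓ, hβ, fun _ => hα, Or.inl h2⟩
    · push Not at hA
      set ν : Cardinal.{u} := #(Iio α) with hν
      have hsl : ν.IsStrongLimit := by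
        refine ⟨?_, ?_⟩
        · intro h0
          have := hA ℓ hα
          rw [h0] at this
          exact absurd this (not_lt.2 (by simp))
        · intro μ hμ
          obtain ⟨a, ha, ha2⟩ := exists_lt_mk_Iio α μ hμ
          rw [← ha2]
          exact hA a ha
      have hlν : lam < ν := by
        have := hA ℓ hα
        rw [hℓ] at this
        exact (cantor lam).trans this
      have hνK : ν < #K := hI α
      have hsing : ν.IsSingular := by
        apply IsSingular.of_not_isRegular (hlam.trans hlν.le)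
        intro hr
        exact hno ν hlν hνK (isInaccessible_def.2 ⟨hlam.trans_lt hlν, hr, hsl⟩)
      -- the order type of `Iio α` is `ν.ord`
      have htype : Ordinal.type (α := Iio α) (· < ·) = ν.ord := by
        apply le_antisymm
        · by_contra hc
          push Not at hc
          obtain ⟨a, ha⟩ := Ordinal.typein_surj (α := Iio α) (· < ·) hc
          have h2 : (Ordinal.typein (α := Iio α) (· < ·) a).card = #(Iio a) := by
            rw [← Ordinal.type_Iio_lt, Ordinal.card_type]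
          rw [ha, Cardinal.card_ord] at h2
          have h3 : #(Iio a) ≤ #(Iio (a : K)) := by
            refine mk_le_of_injective (f := fun x => (⟨x.1.1, x.2⟩ : Iio (a : K))) ?_
            intro x y hxy
            have : x.1.1 = y.1.1 := congrArg (fun z : Iio (a : K) => z.1) hxy
            exact Subtype.ext (Subtype.ext this)
          have h4 := hA a a.2
          have h5 := (cantor (#(Iio (a : K)))).trans h4
          rw [h2] at h5
          exact absurd h5 (not_lt.2 h3)
        · rw [Cardinal.ord_le, Ordinal.card_type]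
      have hcof : Order.cof (Iio α) < ν := by
        have := hsing.cof_ord_lt
        rw [← htype, Ordinal.cof_type] at this
        exact this
      obtain ⟨s, hs, hsc⟩ := Order.exists_cof_eq (Iio α)
      rw [← hsc] at hcof
      obtain ⟨β, hβ, hβ2⟩ := exists_lt_mk_Iio α (#s) hcof
      obtain ⟨e⟩ := Cardinal.eq.1 hβ2
      refine ⟨β, fun i => if hi : i < β then ((e ⟨i, hi⟩ : s) : Iio α).1 else ℓ, hβ, ?_, Or.inr ?_⟩
      · intro i
        dsimp only
        split_ifs with hi
        · exact ((e ⟨i, hi⟩ : s) : Iio α).2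
        · exact hα
      · intro c hc
        obtain ⟨d, hd, hcd⟩ := hs ⟨c, hc⟩
        refine ⟨(e.symm ⟨d, hd⟩).1, (e.symm ⟨d, hd⟩).2, ?_⟩
        have : ((e.symm ⟨d, hd⟩).1 : K) < β := (e.symm ⟨d, hd⟩).2
        dsimp only
        split_ifs
        have h3 : e (⟨(e.symm ⟨d, hd⟩).1, this⟩ : Iio β) = ⟨d, hd⟩ := by
          rw [show (⟨(e.symm ⟨d, hd⟩).1, this⟩ : Iio β) = e.symm ⟨d, hd⟩ from rfl,
            Equiv.apply_symm_apply]
        rw [h3]
        exact hcd
  choose! ρ h hρ hh hk using key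
  refine ⟨ℓ, ρ, h, hρ, hh, ?_⟩
  intro ρ0 η
  obtain ⟨b1, hb1⟩ := bdd_of_mk (K := K) hin.isStrongLimit (2 ^ #(Iio ρ0))
    (hin.isStrongLimit.isStrongPrelimit (hI ρ0))
  by_cases hex : ∃ α, ℓ < α ∧ ρ α = ρ0 ∧ (∀ i < ρ0, h α i = η i) ∧ (∀ c < α, ∃ i < ρ0, c ≤ η i)
  · obtain ⟨α0, hα0, -, h2, h3⟩ := hex
    obtain ⟨b2, hb2⟩ := bdd_of_lt hin.isRegular hI (ι := PUnit)
      (by simpa using one_lt_aleph0.trans hin.aleph0_lt) (fun _ => α0)
    refine ⟨max b1 b2, fun α hα hα1 hα2 => ?_⟩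
    rcases hk α hα with h4 | h4
    · exact lt_max_of_lt_left (hb1 α (hα1 ▸ h4))
    · apply lt_max_of_lt_right
      refine lt_of_le_of_lt ?_ (hb2 PUnit.unit)
      by_contra hc
      push Not at hc
      obtain ⟨i, hi, hi2⟩ := h4 α0 hc
      rw [hα1] at hi
      rw [hα2 i hi, ← h2 i hi] at hi2
      exact absurd (hh α0 hα0 i) (not_lt.2 hi2)
  · refine ⟨b1, fun α hα hα1 hα2 => ?_⟩
    rcases hk α hα with h4 | h4
    · exact hb1 α (hα1 ▸ h4)
    · exfalso
      apply hex
      refine ⟨α, hα, hα1, hα2, fun c hc => ?_⟩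
      obtain ⟨i, hi, hi2⟩ := h4 c hc
      rw [hα1] at hi
      exact ⟨i, hi, by rw [← hα2 i hi]; exact hi2⟩

end order

section alg

variable {K : Type u} [LinearOrder K] [WellFoundedLT K] (ρ : K → K) (h : K → K → K)

/-- Iterating the functions `ρ` (letter `none`) and `h · j` (letter `some j`). -/
def FW : List (Option K) → K → K
  | [], x => x
  | none :: w, x => ρ (FW w x)
  | some j :: w, x => h (FW w x) j

/-- The words with parameters below `δ` take the same values below `δ` at `x` and `y`. -/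
def EW (δ x y : K) : Prop :=
  ∀ w : List (Option K), (∀ j, some j ∈ w → j < δ) → ∀ c < δ, (FW ρ h w x = c ↔ FW ρ h w y = c)

/-- The algebra of all sets which do not separate points equivalent for some `δ`. -/
def AW : Set (Set K) := {S | ∃ δ, ∀ x y, EW ρ h δ x y → (x ∈ S ↔ y ∈ S)}

omit [WellFoundedLT K] in
theorem EW.mono {δ δ' x y : K} (hd : δ ≤ δ') (hxy : EW ρ h δ' x y) : EW ρ h δ x y :=
  fun w hw c hc => hxy w (fun j hj => (hw j hj).trans_le hd) c (hc.trans_le hd)

/-- The code of a point. -/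
def codeW (δ x : K) : Set (List (Option (Iio δ)) × Iio δ) :=
  {p | FW ρ h (p.1.map (Option.map Subtype.val)) x = p.2.1}

omit [WellFoundedLT K] in
theorem EW_of_code {δ x y : K} (hxy : codeW ρ h δ x = codeW ρ h δ y) : EW ρ h δ x y := by
  intro w hw c hc
  have hlift : ∀ w : List (Option K), (∀ j, some j ∈ w → j < δ) →
      ∃ v : List (Option (Iio δ)), v.map (Option.map Subtype.val) = w := by
    intro w
    induction w with
    | nil => intro _; exact ⟨[], rfl⟩
    | cons i w ih =>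
      intro hw
      obtain ⟨v, hv⟩ := ih (fun j hj => hw j (List.mem_cons_of_mem _ hj))
      cases i with
      | none => exact ⟨none :: v, by simp [hv]⟩
      | some j => exact ⟨some ⟨j, hw j (List.mem_cons_self)⟩ :: v, by simp [hv]⟩
  obtain ⟨v, rfl⟩ := hlift w hw
  have := Set.ext_iff.1 hxy (v, ⟨c, hc⟩)
  exact this

variable {ρ h}

omit [WellFoundedLT K] in
theorem exists_gt' (hin : (#K).IsInaccessible) (hI : ∀ a : K, #(Iio a) < #K) (a : K) :
    ∃ b, a < b := by
  obtain ⟨b, hb⟩ := bdd_of_lt hin.isRegular hI (ι := PUnit)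
      (by simpa using one_lt_aleph0.trans hin.aleph0_lt) (fun _ => a)
  exact ⟨b, hb PUnit.unit⟩

omit [WellFoundedLT K] in
theorem word_bdd (hin : (#K).IsInaccessible) (hI : ∀ a : K, #(Iio a) < #K) (a : K)
    (w : List (Option K)) : ∃ δ, a ≤ δ ∧ ∀ j, some j ∈ w → j < δ := by
  induction w with
  | nil => exact ⟨a, le_rfl, by simp⟩
  | cons i w ih =>
    obtain ⟨δ, h1, h2⟩ := ih
    cases i with
    | none =>
      refine ⟨δ, h1, fun j hj => ?_⟩
      simp only [List.mem_cons, reduceCtorEq, false_or] at hj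
      exact h2 j hj
    | some k =>
      obtain ⟨b, hb⟩ := exists_gt' hin hI k
      refine ⟨max δ b, h1.trans (le_max_left _ _), fun j hj => ?_⟩
      simp only [List.mem_cons, Option.some.injEq] at hj
      rcases hj with rfl | hj
      · exact hb.trans_le (le_max_right _ _)
      · exact (h2 j hj).trans_le (le_max_left _ _)

omit [WellFoundedLT K] in
theorem kalg_AW (hin : (#K).IsInaccessible) (hI : ∀ a : K, #(Iio a) < #K) :
    KAlg (#K) (AW ρ h) := by
  refine ⟨?_, ?_⟩
  · rintro S ⟨δ, hδ⟩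
    exact ⟨δ, fun x y hxy => not_congr (hδ x y hxy)⟩
  · intro F hF hc
    have hF' : ∀ S : F, ∃ δ, ∀ x y, EW ρ h δ x y → (x ∈ S.1 ↔ y ∈ S.1) := fun S => hF S.2
    choose d hd using hF'
    obtain ⟨b, hb⟩ := bdd_of_lt hin.isRegular hI hc (fun S : F => d S)
    refine ⟨b, fun x y hxy => ?_⟩
    simp only [mem_sInter]
    refine forall₂_congr fun S hS => ?_
    exact hd ⟨S, hS⟩ x y (EW.mono ρ h (hb ⟨S, hS⟩).le hxy)

theorem eq_mem_AW (hin : (#K).IsInaccessible) (hI : ∀ a : K, #(Iio a) < #K)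
    (w : List (Option K)) (c : K) : {x | FW ρ h w x = c} ∈ AW ρ h := by
  obtain ⟨b, hb⟩ := exists_gt' hin hI c
  obtain ⟨δ, h1, h2⟩ := word_bdd hin hI b w
  exact ⟨δ, fun x y hxy => hxy w h2 c (hb.trans_le h1)⟩

theorem lt_mem_AW (hin : (#K).IsInaccessible) (hI : ∀ a : K, #(Iio a) < #K)
    (w : List (Option K)) (c : K) : {x | FW ρ h w x < c} ∈ AW ρ h := by
  obtain ⟨δ, h1, h2⟩ := word_bdd hin hI c w
  refine ⟨δ, fun x y hxy => ?_⟩
  constructor
  · intro hx
    have := (hxy w h2 _ (lt_of_lt_of_le hx h1)).1 rfl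
    change FW ρ h w y < c
    rw [this]
    exact hx
  · intro hx
    have := (hxy w h2 _ (lt_of_lt_of_le hx h1)).2 rfl
    change FW ρ h w x < c
    rw [this]
    exact hx

theorem singleton_mem_AW (hin : (#K).IsInaccessible) (hI : ∀ a : K, #(Iio a) < #K) (x : K) :
    {x} ∈ AW ρ h :=
  eq_mem_AW hin hI [] x

theorem mk_AW (hin : (#K).IsInaccessible) (hI : ∀ a : K, #(Iio a) < #K) :
    #(AW ρ h) = #K := by
  apply le_antisymm
  · have h1 : AW ρ h = ⋃ δ, {S | ∀ x y, EW ρ h δ x y → (x ∈ S ↔ y ∈ S)} := by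
      ext S
      simp [AW]
    rw [h1]
    refine (mk_iUnion_le_sum_mk).trans ?_
    have h2 : ∀ δ : K, #({S | ∀ x y, EW ρ h δ x y → (x ∈ S ↔ y ∈ S)} : Set (Set K)) ≤ #K := by
      intro δ
      have h3 : #({S | ∀ x y, EW ρ h δ x y → (x ∈ S ↔ y ∈ S)} : Set (Set K)) ≤
          #(Set (Set (List (Option (Iio δ)) × Iio δ))) := by
        refine mk_le_of_injective (f := fun S => codeW ρ h δ '' S.1) ?_
        rintro ⟨S, hS⟩ ⟨T, hT⟩ hST
        simp only at hST
        apply Subtype.ext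
        ext x
        constructor
        · intro hx
          have : codeW ρ h δ x ∈ codeW ρ h δ '' T := hST ▸ mem_image_of_mem _ hx
          obtain ⟨y, hy, hxy⟩ := this
          exact (hT y x (EW_of_code ρ h hxy)).1 hy
        · intro hx
          have : codeW ρ h δ x ∈ codeW ρ h δ '' S := hST ▸ mem_image_of_mem _ hx
          obtain ⟨y, hy, hxy⟩ := this
          exact (hS y x (EW_of_code ρ h hxy)).1 hy
      refine h3.trans ?_
      rw [mk_set, mk_set]
      refine (hin.isStrongLimit.isStrongPrelimit (hin.isStrongLimit.isStrongPrelimit ?_)).le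
      rw [mk_prod, lift_id, lift_id]
      refine mul_lt_of_lt hin.aleph0_lt.le ?_ (hI δ)
      refine (mk_list_le_max _).trans_lt (max_lt hin.aleph0_lt ?_)
      rw [mk_option]
      exact add_lt_of_lt hin.aleph0_lt.le (hI δ) (one_lt_aleph0.trans hin.aleph0_lt)
    refine (Cardinal.sum_le_sum _ _ h2).trans ?_
    simp only [sum_const, lift_id]
    rw [mul_eq_self hin.aleph0_lt.le]
  · refine mk_le_of_injective (f := fun x : K => (⟨{x}, singleton_mem_AW hin hI x⟩ : AW ρ h)) ?_
    intro x y hxy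
    have := congrArg Subtype.val hxy
    exact Set.singleton_injective this

theorem no_kult (hin : (#K).IsInaccessible) (hI : ∀ a : K, #(Iio a) < #K) (ℓ : K)
    (h1 : ∀ α, ℓ < α → ρ α < α) (h2 : ∀ α, ℓ < α → ∀ i, h α i < α)
    (h3 : ∀ (ρ0 : K) (η : K → K), ∃ b : K, ∀ α, ℓ < α → ρ α = ρ0 → (∀ i < ρ0, h α i = η i) →
        α < b) (U : Set (Set K)) : ¬ KUlt (#K) (AW ρ h) U := by
  classical
  intro hU
  have hcomplA : ∀ S ∈ AW ρ h, Sᶜ ∈ AW ρ h := (kalg_AW hin hI).compl
  have hne : ∀ S ∈ U, S.Nonempty := by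
    intro S hS
    rw [nonempty_iff_ne_empty]
    rintro rfl
    have := hU.unif _ hS
    rw [mk_eq_zero] at this
    exact hin.ne_zero this.symm
  have hcompl : ∀ S ∈ AW ρ h, S ∉ U → Sᶜ ∈ U := by
    intro S hS hSU
    by_contra hc
    exact hSU ((hU.ultra S hS).2 hc)
  have hInter : ∀ (ι : Type u) (S : ι → Set K), #ι < #K → (∀ i, S i ∈ U) → ⋂ i, S i ∈ U := by
    intro ι S hι hS
    rw [← sInter_range]
    apply hU.inter
    · rintro _ ⟨i, rfl⟩
      exact hS i
    · exact mk_range_le.trans_lt hι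
  have hInter2 : ∀ S T : Set K, S ∈ U → T ∈ U → S ∩ T ∈ U := by
    intro S T hS hT
    have := hInter (ULift Bool) (fun b => if b.down then S else T) (by
      exact (lt_aleph0_of_finite _).trans hin.aleph0_lt) (by
      rintro ⟨_ | _⟩ <;> simp [hS, hT])
    convert this using 1
    ext x
    simp only [mem_inter_iff, mem_iInter, ULift.forall, Bool.forall_bool]
    simp [and_comm]
  have hconst : ∀ (w : List (Option K)) (δ : K), {x | FW ρ h w x < δ} ∈ U →
      ∃ c, {x | FW ρ h w x = c} ∈ U := by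
    intro w δ hδ
    by_contra hc
    push Not at hc
    have h5 : ⋂ c : Iio δ, {x | FW ρ h w x = c}ᶜ ∈ U := by
      apply hInter _ _ (hI δ)
      intro c
      exact hcompl _ (eq_mem_AW hin hI w c) (hc c)
    obtain ⟨x, hx1, hx2⟩ := hne _ (hInter2 _ _ hδ h5)
    rw [mem_iInter] at hx2
    exact hx2 ⟨FW ρ h w x, hx1⟩ rfl
  have hstep : ∀ w : List (Option K), (∀ δ, {x | FW ρ h w x < δ} ∉ U) →
      ∃ i, ∀ δ, {x | FW ρ h (i :: w) x < δ} ∉ U := by
    intro w hw
    by_contra hc
    push Not at hc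
    obtain ⟨δ0, hδ0⟩ := hc none
    obtain ⟨ρ0, hρ0⟩ := hconst _ _ hδ0
    have h6 : ∀ j, ∃ c, {x | FW ρ h (some j :: w) x = c} ∈ U := by
      intro j
      obtain ⟨δ, hδ⟩ := hc (some j)
      exact hconst _ _ hδ
    choose η hη using h6
    have h7 : ⋂ j : Iio ρ0, {x | FW ρ h (some j.1 :: w) x = η j} ∈ U :=
      hInter _ _ (hI ρ0) (fun j => hη j)
    obtain ⟨b, hb⟩ := h3 ρ0 η
    obtain ⟨b', hb'⟩ := exists_gt' hin hI ℓ
    apply hw (max b b')
    refine hU.up _ (hInter2 _ _ hρ0 h7) _ (lt_mem_AW hin hI w _) ?_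
    rintro x ⟨hx1, hx2⟩
    rw [mem_iInter] at hx2
    change FW ρ h w x < max b b'
    by_cases hl : ℓ < FW ρ h w x
    · apply lt_max_of_lt_left
      apply hb _ hl hx1
      intro i hi
      exact hx2 ⟨i, hi⟩
    · exact lt_max_of_lt_right ((not_lt.1 hl).trans_lt hb')
  have hid : ∀ δ, {x | FW ρ h [] x < δ} ∉ U := by
    intro δ hδ
    have := hU.unif _ hδ
    exact absurd this (hI δ).ne
  choose! nx hnx using hstep
  let W : ℕ → List (Option K) := fun n => Nat.rec [] (fun _ w => nx w :: w) n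
  have hW0 : W 0 = [] := rfl
  have hWs : ∀ n, W (n + 1) = nx (W n) :: W n := fun n => rfl
  have hWu : ∀ n, ∀ δ, {x | FW ρ h (W n) x < δ} ∉ U := by
    intro n
    induction n with
    | zero => exact hid
    | succ n ih => rw [hWs]; exact hnx _ ih
  obtain ⟨b, hb⟩ := exists_gt' hin hI ℓ
  obtain ⟨x, hx⟩ := hne _ (hInter (ULift ℕ) (fun n => {x | FW ρ h (W n.down) x < b}ᶜ) (by
    simpa using hin.aleph0_lt) (fun n => hcompl _ (lt_mem_AW hin hI _ _) (hWu _ _)))
  rw [mem_iInter] at hx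
  have hx' : ∀ n, ℓ < FW ρ h (W n) x := fun n => hb.trans_le (not_lt.1 (hx ⟨n⟩))
  have hdec : StrictAnti fun n => FW ρ h (W n) x := by
    apply strictAnti_nat_of_succ_lt
    intro n
    simp only [hWs]
    cases hh : nx (W n) with
    | none => exact h1 _ (hx' n)
    | some j => exact h2 _ (hx' n) j
  exact (not_strictAnti_of_wellFoundedLT _) hdec

/-- The main theorem on algebras: if there is no inaccessible cardinal strictly between `lam` and
the inaccessible cardinal `#K` then there is a `#K`-complete algebra of `#K` sets, containing the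
singletons, without a uniform `#K`-complete ultrafilter. -/
theorem exists_algebra {K : Type u} (lam : Cardinal.{u}) (hlam : ℵ₀ ≤ lam) (hlK : lam < #K)
    (hin : (#K).IsInaccessible)
    (hno : ∀ ν : Cardinal.{u}, lam < ν → ν < #K → ¬ ν.IsInaccessible) :
    ∃ A : Set (Set K), KAlg (#K) A ∧ #A = #K ∧ (∀ x, {x} ∈ A) ∧ ∀ U, ¬ KUlt (#K) A U := by
  obtain ⟨r, hwo, hr⟩ := Cardinal.exists_ord_eq K
  let _ : LinearOrder K := IsWellOrder.linearOrder r
  have _ : WellFoundedLT K := hwo.toIsWellFounded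
  have hI : ∀ a : K, #(Iio a) < #K := fun a => mk_Iio_lt a hr
  obtain ⟨ℓ, ρ, h, h1, h2, h3⟩ := star lam hlam hlK hin hI hno
  exact ⟨AW ρ h, kalg_AW hin hI, mk_AW hin hI, singleton_mem_AW hin hI,
    no_kult hin hI ℓ h1 h2 h3⟩

end alg

end Pool.Agent.L7h73
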