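import Mathlib
import Pool.Agent.Helper669.Forcing

set_option autoImplicit false

/-!
# Winning strategies in the strong countable fan tightness game are preserved by every forcing

The forcing relation is the one of `Pool.Agent.Helper669.Forcing`: a sentence is the set of the
conditions which force it, and a name for a subset of a ground model set `X` is a map which sends
`x : X` to the set of the conditions attached to `x`.

Proof. If II has a winning strategy in the game at `x`, then the player who chooses neighbourhoods of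
`x` has a winning strategy `U` in the dual game, in which the other player chooses points of these
neighbourhoods. That `U` is winning says, for every open set `O` containing `x`, that the tree of the
finite plays according to `U` avoiding `O` is well-founded. In the extension II answers the set `A`
by the least point of `A` which belongs to the neighbourhood given by `U`.
-/

namespace Pool.Agent.L7h73.Scft

open Pool.Agent.Helper669.Forcing

universe u v w

/-- The list of the values `A (n - 1), ..., A 0`: the moves made before round `n`, the most recent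
one first. -/
def history {α : Type w} (A : ℕ → α) : ℕ → List α
  | 0 => []
  | n + 1 => A n :: history A n

/-- Player II has a winning strategy in the strong countable fan tightness game `G_1(Ω_x, Ω_x)` at
`x`: in round `n` player I plays a set `A n` with `x` in its closure, II answers by a point
`σ (history A n) (A n)` of `A n` (the answer depends on all moves of I so far), and II wins if `x`
is in the closure of the set of the answers. -/
def TwoWins {X : Type v} [TopologicalSpace X] (x : X) : Prop :=
  ∃ σ : List (Set X) → Set X → X, ∀ A : ℕ → Set X, (∀ n, x ∈ closure (A n)) →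
    (∀ n, σ (history A n) (A n) ∈ A n) ∧ x ∈ closure {a | ∃ n, a = σ (history A n) (A n)}

section Ext

variable (P : Type u) [Preorder P] {X : Type v} [TopologicalSpace X]

variable {P} in
/-- The named subsets `A` and `B` of `X` are equal. -/
def SameSet (A B : X → Set P) : Set P :=
  fall fun a : X => fand (fimp (meets (A a)) (meets (B a))) (fimp (meets (B a)) (meets (A a)))

variable {P} in
/-- The finite sequences of subsets of `X` named by `L` and `L'` are equal. -/
def SameHist (L L' : List (X → Set P)) : Set P :=
  fand (fground (L.length = L'.length))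
    (fall fun i : ℕ => SameSet (L.getD i fun _ => ∅) (L'.getD i fun _ => ∅))

variable {P} in
/-- In the extension: the set named by `W` is open for the topology on `X` which has the open sets
of the ground model as a base. -/
def IsOpenExt (W : X → Set P) : Set P :=
  fall fun y : X => fimp (meets (W y))
    (fex fun U : {U : Set X // IsOpen U ∧ y ∈ U} => fall fun z : X => fall fun _ : z ∈ U.1 =>
      meets (W z))

variable {P} in
/-- In the extension: `x` is in the closure of the set named by `A`, for the topology on `X` which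
has the open sets of the ground model as a base. -/
def InClosureExt (x : X) (A : X → Set P) : Set P :=
  fall fun W : X → Set P => fimp (fand (IsOpenExt W) (meets (W x)))
    (fex fun y : X => fand (meets (W y)) (meets (A y)))

variable {P} in
/-- In the extension: the function named by `σ`, which sends a finite sequence `L` of subsets of `X`
and a subset `A` of `X` to a point of `X`, is well defined. -/
def IsStrategy (σ : List (X → Set P) → (X → Set P) → X → Set P) : Set P :=
  fand
    (fall fun L : List (X → Set P) => fall fun L' : List (X → Set P) =>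
      fall fun A : X → Set P => fall fun A' : X → Set P => fall fun a : X =>
        fimp (fand (SameHist L L') (fand (SameSet A A') (meets (σ L A a)))) (meets (σ L' A' a)))
    (fall fun L : List (X → Set P) => fall fun A : X → Set P =>
      fand (fex fun a : X => meets (σ L A a))
        (fall fun a : X => fall fun a' : X =>
          fimp (fand (meets (σ L A a)) (meets (σ L A a'))) (fground (a = a'))))

/-- In the extension by `P`: player II has a winning strategy in the strong countable fan tightness
game at `x`, for the topology on `X` which has the open sets of the ground model as a base. -/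
def TwoWinsExt (x : X) : Set P :=
  fex fun σ : List (X → Set P) → (X → Set P) → X → Set P =>
    fand (IsStrategy σ)
      (fall fun A : ℕ → X → Set P => fimp (fall fun n : ℕ => InClosureExt x (A n))
        (fand
          (fall fun n : ℕ => fall fun a : X =>
            fimp (meets (σ (history A n) (A n) a)) (meets (A n a)))
          (InClosureExt x fun a : X => {p | ∃ n : ℕ, p ∈ σ (history A n) (A n) a})))

end Ext

/-! ### Histories -/

theorem history_congr {α : Type w} {A B : ℕ → α} {n : ℕ} (h : ∀ i < n, A i = B i) :
    history A n = history B n := by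
  induction n with
  | zero => rfl
  | succ n ih =>
    simp only [history]
    rw [h n (Nat.lt_succ_self n), ih fun i hi => h i (hi.trans (Nat.lt_succ_self n))]

theorem length_history {α : Type w} (A : ℕ → α) (n : ℕ) : (history A n).length = n := by
  induction n with
  | zero => rfl
  | succ n ih => simp [history, ih]

theorem exists_play {α : Type w} (p : α → Prop) (d : α) (hd : p d) (L : List α)
    (hL : ∀ a ∈ L, p a) (b : α) (hb : p b) :
    ∃ A : ℕ → α, (∀ n, p (A n)) ∧ history A L.length = L ∧ A L.length = b := by
  induction L generalizing b with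
  | nil => exact ⟨fun n => if n = 0 then b else d, fun n => by
      by_cases h : n = 0 <;> simp [h, hb, hd], rfl, by simp⟩
  | cons a L ih =>
    obtain ⟨A, h1, h2, h3⟩ := ih (fun c hc => hL c (List.mem_cons_of_mem a hc)) a
      (hL a (List.mem_cons_self ..))
    refine ⟨Function.update A (L.length + 1) b, fun n => ?_, ?_, ?_⟩
    · by_cases h : n = L.length + 1
      · subst h; simpa using hb
      · rw [Function.update_of_ne h]; exact h1 n
    · have h4 : history (Function.update A (L.length + 1) b) (L.length + 1)
          = history A (L.length + 1) :=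
        history_congr fun i hi => Function.update_of_ne (Nat.ne_of_lt hi) _ _
      show history (Function.update A (L.length + 1) b) (L.length + 1) = a :: L
      rw [h4, history, h2, h3]
    · show Function.update A (L.length + 1) b (L.length + 1) = b
      simp

/-! ### The dual game in the ground model -/

theorem exists_dual {X : Type v} [TopologicalSpace X] {x : X} (h : TwoWins x) :
    ∃ U : List X → Set X, (∀ s, IsOpen (U s) ∧ x ∈ U s) ∧
      ∀ y : ℕ → X, (∀ n, y n ∈ U (history y n)) → x ∈ closure (Set.range y) := by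
  classical
  obtain ⟨σ, hσ⟩ := h
  -- legal answers
  have hleg : ∀ (L : List (Set X)) (B : Set X), (∀ A ∈ L, x ∈ closure A) → x ∈ closure B →
      σ L B ∈ B := by
    intro L B hL hB
    obtain ⟨A, h1, h2, h3⟩ := exists_play (fun A => x ∈ closure A) Set.univ (by simp) L hL B hB
    have := (hσ A h1).1 L.length
    rwa [h2, h3] at this
  have hU : ∀ L : List (Set X), (∀ A ∈ L, x ∈ closure A) →
      ∃ U : Set X, (IsOpen U ∧ x ∈ U) ∧ ∀ y ∈ U, ∃ A, x ∈ closure A ∧ σ L A = y := by
    intro L hL
    by_contra hcon
    push Not at hcon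
    let B : Set X := {y | ∀ A, x ∈ closure A → σ L A ≠ y}
    have hB : x ∈ closure B := by
      rw [mem_closure_iff]
      intro O hO hx
      obtain ⟨y, hy, hy'⟩ := hcon O ⟨hO, hx⟩
      exact ⟨y, hy, hy'⟩
    exact hleg L B hL hB B hB rfl
  let pick : List (Set X) → X → Set X := fun L y =>
    if h : ∃ A, x ∈ closure A ∧ σ L A = y then h.choose else Set.univ
  have hpick : ∀ L y, x ∈ closure (pick L y) := by
    intro L y
    by_cases h : ∃ A, x ∈ closure A ∧ σ L A = y
    · simp only [pick, dif_pos h]; exact h.choose_spec.1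
    · simp only [pick, dif_neg h]; simp
  have hpick' : ∀ L y, (∃ A, x ∈ closure A ∧ σ L A = y) → σ L (pick L y) = y := by
    intro L y h
    simp only [pick, dif_pos h]
    exact h.choose_spec.2
  let T : List X → List (Set X) := fun s => s.rec [] (fun y _ r => pick r y :: r)
  have hT0 : T [] = [] := rfl
  have hTs : ∀ y s, T (y :: s) = pick (T s) y :: T s := fun _ _ => rfl
  have hT : ∀ s, ∀ A ∈ T s, x ∈ closure A := by
    intro s
    induction s with
    | nil => intro A hA; rw [hT0] at hA; exact absurd hA (by simp)
    | cons y s ih =>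
      intro A hA
      rw [hTs, List.mem_cons] at hA
      rcases hA with rfl | hA
      · exact hpick _ _
      · exact ih A hA
  choose V hV1 hV2 using fun s => hU (T s) (hT s)
  refine ⟨V, hV1, fun y hy => ?_⟩
  let A : ℕ → Set X := fun n => pick (T (history y n)) (y n)
  have hA : ∀ n, T (history y n) = history A n := by
    intro n
    induction n with
    | zero => rfl
    | succ n ih =>
      show T (y n :: history y n) = A n :: history A n
      rw [hTs, ← ih]
  have h1 := (hσ A fun n => hpick _ _).2
  refine closure_mono ?_ h1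
  rintro a ⟨n, rfl⟩
  refine ⟨n, ?_⟩
  rw [← hA n]
  exact (hpick' _ _ (hV2 _ _ (hy n))).symm

/-! ### The extension -/

section Ext

variable {P : Type u} [Preorder P] {X : Type v}

theorem down_SameSet (A B : X → Set P) : Down (SameSet A B) :=
  down_fall fun _ => down_fand (down_fimp _ _) (down_fimp _ _)

theorem down_SameHist (L L' : List (X → Set P)) : Down (SameHist L L') :=
  down_fand (down_fground _) (down_fall fun _ => down_SameSet _ _)

theorem meets_iff {N : Set P} (hN : Down N) {p : P} :
    p ∈ meets N ↔ ∀ q ≤ p, ∃ r ≤ q, r ∈ N := by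
  constructor
  · intro h q hq
    exact exists_of_meets hN (down_meets N p h q hq)
  · intro h q hq
    obtain ⟨r, hr, hrN⟩ := h q hq
    exact ⟨r, hr, r, hrN, le_rfl⟩

/-- a sentence forced densely below `p` is forced by `p` -/
theorem meets_of_dense {N : Set P} {p : P} (h : ∀ q ≤ p, ∃ r ≤ q, r ∈ meets N) : p ∈ meets N := by
  intro q hq
  obtain ⟨r, hr, hr'⟩ := h q hq
  obtain ⟨t, ht, s, hs, hts⟩ := hr' r le_rfl
  exact ⟨t, ht.trans hr, s, hs, hts⟩

theorem meets_of_same {A B : X → Set P} {q : P} (h : q ∈ SameSet A B) {a : X}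
    (ha : q ∈ meets (A a)) : q ∈ meets (B a) := by
  refine meets_of_dense fun r hr => ?_
  obtain ⟨t, ht, ht'⟩ := mem_fimp.1 (h a).1 r hr (down_meets _ _ ha _ hr)
  exact ⟨t, ht, ht'⟩

theorem same_symm {A B : X → Set P} {q : P} (h : q ∈ SameSet A B) : q ∈ SameSet B A :=
  fun a => ⟨(h a).2, (h a).1⟩

theorem not_meets_of_same {A B : X → Set P} {q : P} (h : q ∈ SameSet A B) {a : X}
    (ha : q ∈ fnot (meets (A a))) : q ∈ fnot (meets (B a)) := by
  intro r hr hr'
  exact ha r hr (meets_of_same (same_symm (down_SameSet A B q h r hr)) hr')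

/-- The conditions which force that `a` is the least element of `A ∩ U` (or `x` if this set is
empty). -/
def Ans (x : X) (U : Set X) (A : X → Set P) (a : X) : Set P :=
  {q | (a ∈ U ∧ q ∈ meets (A a) ∧ ∀ b, WellOrderingRel b a → b ∈ U → q ∈ fnot (meets (A b))) ∨
    (a = x ∧ ∀ b ∈ U, q ∈ fnot (meets (A b)))}

theorem down_Ans (x : X) (U : Set X) (A : X → Set P) (a : X) : Down (Ans x U A a) := by
  rintro p (⟨h1, h2, h3⟩ | ⟨h1, h2⟩) q hq
  · exact Or.inl ⟨h1, down_meets _ _ h2 _ hq, fun b hb hb' => down_fnot _ _ (h3 b hb hb') _ hq⟩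
  · exact Or.inr ⟨h1, fun b hb => down_fnot _ _ (h2 b hb) _ hq⟩

theorem Ans_unique {x : X} {U : Set X} {A : X → Set P} {a a' : X} {q : P}
    (h : q ∈ Ans x U A a) (h' : q ∈ Ans x U A a') : a = a' := by
  rcases h with ⟨h1, h2, h3⟩ | ⟨h1, h2⟩ <;> rcases h' with ⟨h1', h2', h3'⟩ | ⟨h1', h2'⟩
  · rcases trichotomous_of WellOrderingRel a a' with hlt | heq | hgt
    · exact absurd h2 (h3' a hlt h1 q le_rfl)
    · exact heq
    · exact absurd h2' (h3 a' hgt h1' q le_rfl)
  · exact absurd h2 (h2' a h1 q le_rfl)
  · exact absurd h2' (h2 a' h1' q le_rfl)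
  · exact h1.trans h1'.symm

theorem Ans_total (x : X) (U : Set X) (A : X → Set P) (p : P) :
    ∃ q ≤ p, ∃ a, q ∈ Ans x U A a := by
  classical
  by_cases h : ∃ b ∈ U, ∃ q ≤ p, q ∈ meets (A b)
  · have hwf : WellFounded (WellOrderingRel : X → X → Prop) := IsWellFounded.wf
    let S : Set X := {b | b ∈ U ∧ ∃ q ≤ p, q ∈ meets (A b)}
    have hS : S.Nonempty := by
      obtain ⟨b, hb, hq⟩ := h
      exact ⟨b, hb, hq⟩
    obtain ⟨hm1, q, hq, hqm⟩ := hwf.min_mem S hS
    refine ⟨q, hq, hwf.min S hS, Or.inl ⟨hm1, hqm, fun b hb hbU r hr hr' => ?_⟩⟩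
    exact hwf.not_lt_min S (x := b) ⟨hbU, r, hr.trans hq, hr'⟩ hb
  · refine ⟨p, le_rfl, x, Or.inr ⟨rfl, fun b hb r hr hr' => ?_⟩⟩
    exact h ⟨b, hb, r, hr, hr'⟩

theorem Ans_congr {x : X} {U : Set X} {A B : X → Set P} {a : X} {q : P}
    (h : q ∈ SameSet A B) (ha : q ∈ Ans x U A a) : q ∈ Ans x U B a := by
  rcases ha with ⟨h1, h2, h3⟩ | ⟨h1, h2⟩
  · exact Or.inl ⟨h1, meets_of_same h h2, fun b hb hbU => not_meets_of_same h (h3 b hb hbU)⟩
  · exact Or.inr ⟨h1, fun b hb => not_meets_of_same h (h2 b hb)⟩

/-- The conditions which force that `s` is the sequence of the answers to `L`. -/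
def Run (x : X) (U : List X → Set X) : List (X → Set P) → List X → Set P
  | [], [] => Set.univ
  | A :: L, a :: s => Run x U L s ∩ Ans x (U s) A a
  | [], _ :: _ => ∅
  | _ :: _, [] => ∅

theorem down_Run (x : X) (U : List X → Set X) (L : List (X → Set P)) (s : List X) :
    Down (Run x U L s) := by
  induction L generalizing s with
  | nil =>
    cases s with
    | nil => intro p _ q _; exact Set.mem_univ _
    | cons a s => intro p hp; exact absurd hp (by simp [Run])
  | cons A L ih =>
    cases s with
    | nil => intro p hp; exact absurd hp (by simp [Run])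
    | cons a s =>
      rintro p ⟨h1, h2⟩ q hq
      exact ⟨ih s p h1 q hq, down_Ans _ _ _ _ p h2 q hq⟩

theorem Run_unique {x : X} {U : List X → Set X} {L : List (X → Set P)} {s s' : List X} {q : P}
    (h : q ∈ Run x U L s) (h' : q ∈ Run x U L s') : s = s' := by
  induction L generalizing s s' with
  | nil =>
    cases s with
    | nil =>
      cases s' with
      | nil => rfl
      | cons a s => exact absurd h' (by simp [Run])
    | cons a s => exact absurd h (by simp [Run])
  | cons A L ih =>
    cases s with
    | nil => exact absurd h (by simp [Run])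
    | cons a s =>
      cases s' with
      | nil => exact absurd h' (by simp [Run])
      | cons a' s' =>
        obtain rfl := ih h.1 h'.1
        rw [Ans_unique h.2 h'.2]

theorem Run_total (x : X) (U : List X → Set X) (L : List (X → Set P)) (p : P) :
    ∃ q ≤ p, ∃ s, q ∈ Run x U L s := by
  induction L with
  | nil => exact ⟨p, le_rfl, [], Set.mem_univ _⟩
  | cons A L ih =>
    obtain ⟨q, hq, s, hs⟩ := ih
    obtain ⟨r, hr, a, ha⟩ := Ans_total x (U s) A q
    exact ⟨r, hr.trans hq, a :: s, down_Run x U L s q hs r hr, ha⟩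

theorem Run_congr {x : X} {U : List X → Set X} {L L' : List (X → Set P)} {s : List X} {q : P}
    (h : q ∈ SameHist L L') (hs : q ∈ Run x U L s) : q ∈ Run x U L' s := by
  induction L generalizing L' s with
  | nil =>
    cases L' with
    | nil => exact hs
    | cons A' L' => exact absurd (mem_fground.1 h.1) (by simp)
  | cons A L ih =>
    cases L' with
    | nil => exact absurd (mem_fground.1 h.1) (by simp)
    | cons A' L' =>
      cases s with
      | nil => exact absurd hs (by simp [Run])
      | cons a s =>
        have h1 : q ∈ SameHist L L' := by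
          refine ⟨?_, fun i => ?_⟩
          · have := mem_fground.1 h.1
            simpa [mem_fground] using this
          · have := h.2 (i + 1)
            simpa using this
        have h2 : q ∈ SameSet A A' := by
          have := h.2 0
          simpa using this
        exact ⟨ih h1 hs.1, Ans_congr h2 hs.2⟩

/-- The name of the strategy of player II. -/
def strat (x : X) (U : List X → Set X) (L : List (X → Set P)) (A : X → Set P) (a : X) : Set P :=
  {q | ∃ s, q ∈ Run x U L s ∧ q ∈ Ans x (U s) A a}

theorem down_strat (x : X) (U : List X → Set X) (L : List (X → Set P)) (A : X → Set P) (a : X) :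
    Down (strat x U L A a) := by
  rintro p ⟨s, h1, h2⟩ q hq
  exact ⟨s, down_Run x U L s p h1 q hq, down_Ans _ _ _ _ p h2 q hq⟩

theorem isStrategy_strat (x : X) (U : List X → Set X) (p : P) :
    p ∈ IsStrategy (strat (P := P) x U) := by
  refine ⟨fun L L' A A' a => ?_, fun L A => ⟨?_, fun a a' => ?_⟩⟩
  · rw [mem_fimp]
    rintro q - ⟨h1, h2, h3⟩
    obtain ⟨r, hr, s, hs, ha⟩ := exists_of_meets (down_strat x U L A a) h3
    refine ⟨r, hr, meets_of_mem ⟨s, ?_, ?_⟩⟩
    · exact Run_congr (down_SameHist _ _ _ h1 _ hr) hs
    · exact Ans_congr (down_SameSet _ _ _ h2 _ hr) ha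
  · rw [mem_fex]
    intro q hq
    obtain ⟨r, hr, s, hs⟩ := Run_total x U L q
    obtain ⟨t, ht, a, ha⟩ := Ans_total x (U s) A r
    exact ⟨t, ht.trans hr, a, meets_of_mem ⟨s, down_Run x U L s r hs t ht, ha⟩⟩
  · rw [mem_fimp]
    rintro q - ⟨h1, h2⟩
    obtain ⟨r, hr, hr'⟩ := exists_of_meets (down_strat x U L A a) h1
    obtain ⟨t, ht, ht'⟩ := exists_of_meets (down_strat x U L A a') (down_meets _ _ h2 _ hr)
    obtain ⟨s, hs, ha⟩ := down_strat x U L A a r hr' t ht
    obtain ⟨s', hs', ha'⟩ := ht'
    obtain rfl := Run_unique hs hs'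
    exact ⟨t, ht.trans hr, Ans_unique ha ha'⟩

variable [TopologicalSpace X]

theorem down_IsOpenExt (W : X → Set P) : Down (IsOpenExt W) :=
  down_fall fun _ => down_fimp _ _

theorem down_InClosureExt (x : X) (A : X → Set P) : Down (InClosureExt x A) :=
  down_fall fun _ => down_fimp _ _

/-- ground model neighbourhoods of a point of the closure -/
theorem exists_of_inClosure {x : X} {A : X → Set P} {q : P} (h : q ∈ InClosureExt x A) {O : Set X}
    (hO : IsOpen O) (hx : x ∈ O) : ∃ r ≤ q, ∃ a ∈ O, r ∈ meets (A a) := by
  have h1 := mem_fimp.1 (h fun y => {_p | y ∈ O}) q le_rfl ⟨?_, meets_of_mem (by exact hx)⟩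
  · obtain ⟨r, hr, h2⟩ := h1
    obtain ⟨t, ht, y, h3, h4⟩ := mem_fex.1 h2 r le_rfl
    obtain ⟨_, _, _, h5, _⟩ := h3 t le_rfl
    exact ⟨t, ht.trans hr, y, h5, h4⟩
  · intro y
    rw [mem_fimp]
    intro r _ hr
    obtain ⟨_, _, _, h5, _⟩ := hr r le_rfl
    refine ⟨r, le_rfl, ?_⟩
    refine mem_fex_of_mem ⟨O, hO, h5⟩ (down_fall fun _ => down_fall fun _ => down_meets _) ?_
    intro z hz
    exact meets_of_mem hz

theorem Ans_of_inClosure {x : X} {U : Set X} (hU : IsOpen U) (hx : x ∈ U) {A : X → Set P} {a : X}
    {q : P} (h : q ∈ InClosureExt x A) (ha : q ∈ Ans x U A a) : a ∈ U ∧ q ∈ meets (A a) := by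
  rcases ha with ⟨h1, h2, -⟩ | ⟨-, h2⟩
  · exact ⟨h1, h2⟩
  · obtain ⟨r, hr, b, hb, hb'⟩ := exists_of_inClosure h hU hx
    exact absurd hb' (h2 b hb r hr)

theorem main (x : X) (h : TwoWins x) (p : P) : p ∈ TwoWinsExt P x := by
  obtain ⟨U, hU, hwin⟩ := exists_dual h
  refine mem_fex_of_mem (strat x U) ?_ ⟨isStrategy_strat x U p, fun A => ?_⟩
  · exact down_fand (down_fand (down_fall fun _ => down_fall fun _ => down_fall fun _ =>
      down_fall fun _ => down_fall fun _ => down_fimp _ _)
      (down_fall fun _ => down_fall fun _ => down_fand (down_fex _)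
        (down_fall fun _ => down_fall fun _ => down_fimp _ _)))
      (down_fall fun _ => down_fimp _ _)
  rw [mem_fimp]
  intro q _ hq
  refine ⟨q, le_rfl, fun n a => ?_, fun W => ?_⟩
  · rw [mem_fimp]
    intro r hr hr'
    obtain ⟨t, ht, s, -, hs⟩ := exists_of_meets (down_strat x U _ _ a) hr'
    exact ⟨t, ht, (Ans_of_inClosure (hU s).1 (hU s).2
      (down_InClosureExt x _ _ (hq n) _ (ht.trans hr)) hs).2⟩
  · rw [mem_fimp]
    rintro r hr ⟨h1, h2⟩
    obtain ⟨r0, hr0, h3⟩ := mem_fimp.1 (h1 x) r le_rfl h2
    obtain ⟨r1, hr1, O, hO⟩ := mem_fex.1 h3 r0 le_rfl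
    -- build a play in the ground model
    let S : Type (max u v) := {z : P × List X // z.1 ≤ r1 ∧
      z.1 ∈ Run x U (history A z.2.length) z.2}
    have hnext : ∀ z : S, ∃ z' : S, ∃ a : X, z'.1.2 = a :: z.1.2 ∧ a ∈ U z.1.2 ∧
        z'.1.1 ∈ strat x U (history A z.1.2.length) (A z.1.2.length) a := by
      rintro ⟨⟨t, s⟩, ht, hs⟩
      obtain ⟨t', ht', a, ha⟩ := Ans_total x (U s) (A s.length) t
      have hle : t' ≤ q := ht'.trans (ht.trans (hr1.trans (hr0.trans hr)))
      have h5 := Ans_of_inClosure (hU s).1 (hU s).2
        (down_InClosureExt x _ _ (hq s.length) _ hle) ha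
      refine ⟨⟨⟨t', a :: s⟩, ht'.trans ht, ?_⟩, a, rfl, h5.1, s, down_Run x U _ s t hs t' ht', ha⟩
      exact ⟨down_Run x U _ s t hs t' ht', ha⟩
    choose nx pt hnx1 hnx2 hnx3 using hnext
    let z0 : S := ⟨⟨r1, []⟩, le_rfl, Set.mem_univ _⟩
    let z : ℕ → S := fun n => n.rec z0 fun _ w => nx w
    have hz : ∀ n, z (n + 1) = nx (z n) := fun _ => rfl
    let y : ℕ → X := fun n => pt (z n)
    have hy : ∀ n, (z n).1.2 = history y n := by
      intro n
      induction n with
      | zero => rfl
      | succ n ih => rw [hz, hnx1, ih]; rfl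
    have hlen : ∀ n, (z n).1.2.length = n := fun n => by rw [hy, length_history]
    have h6 := hwin y fun n => by rw [← hy]; exact hnx2 (z n)
    rw [mem_closure_iff] at h6
    obtain ⟨_, hyO, ⟨n, rfl⟩⟩ := h6 O.1 O.2.1 O.2.2
    refine ⟨(z (n + 1)).1.1, ((z (n + 1)).2.1.trans hr1).trans hr0, ?_⟩
    refine mem_fex_of_mem (y n) (down_fand (down_meets _) (down_meets _)) ⟨?_, ?_⟩
    · exact down_meets _ _ (hO (y n) hyO) _ (z (n + 1)).2.1
    · refine meets_of_mem ⟨n, ?_⟩
      have h7 := hnx3 (z n)
      rw [hlen n] at h7
      exact h7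

end Ext

end Pool.Agent.L7h73.Scft
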